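import Mathlib
import Pool.Agent.N290.RJ.Stm

/-!
# The unitary group of `ℂ^(d+1)` is transitive on spheres
-/

set_option autoImplicit false

namespace Pool.Agent.N286.RJ

open Pool.Agent.N290.RJ

noncomputable section

/-- `E d` as a euclidean space -/
def T (d : ℕ) : E d ≃ₗ[ℂ] EuclideanSpace ℂ (Fin (d + 1)) :=
  (Fin.consLinearEquiv ℂ (fun _ : Fin (d + 1) => ℂ)).trans
    (WithLp.linearEquiv 2 ℂ (Fin (d + 1) → ℂ)).symm

theorem T_zero_apply {d : ℕ} (z : E d) : T d z 0 = z.1 := by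
  simp [T]

theorem T_succ_apply {d : ℕ} (z : E d) (i : Fin d) : T d z i.succ = z.2 i := by
  simp [T]

theorem T_norm_sq {d : ℕ} (z : E d) : ‖T d z‖ ^ 2 = N z := by
  rw [EuclideanSpace.norm_sq_eq, Fin.sum_univ_succ, T_zero_apply]
  simp only [T_succ_apply, N]

theorem T_norm {d : ℕ} (z : E d) : ‖T d z‖ = nm z := by
  rw [nm, ← T_norm_sq, Real.sqrt_sq (norm_nonneg _)]

/-- a unit vector is the first vector of an orthonormal basis -/
theorem exists_basis {d : ℕ} (u : EuclideanSpace ℂ (Fin (d + 1))) (hu : ‖u‖ = 1) :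
    ∃ b : OrthonormalBasis (Fin (d + 1)) ℂ (EuclideanSpace ℂ (Fin (d + 1))), b 0 = u := by
  have h1 : Module.finrank ℂ (EuclideanSpace ℂ (Fin (d + 1))) = Fintype.card (Fin (d + 1)) := by
    simp
  have h2 : Orthonormal ℂ (({0} : Set (Fin (d + 1))).domRestrict
      (fun _ : Fin (d + 1) => u)) := by
    refine ⟨fun i => hu, fun i j hij => ?_⟩
    exact absurd (Subsingleton.elim i j) hij
  obtain ⟨b, hb⟩ := h2.exists_orthonormalBasis_extension_of_card_eq h1
  exact ⟨b, hb 0 rfl⟩

theorem c4b (d : ℕ) : C4b d := by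
  intro z
  by_cases hz : nm z = 0
  · have h0 : z = 0 := by
      have h1 : T d z = 0 := by rw [← norm_eq_zero, T_norm, hz]
      exact (map_eq_zero_iff _ (T d).injective).1 h1
    refine ⟨ContinuousLinearMap.id ℂ (E d), fun ξ => rfl, Function.bijective_id, ?_⟩
    rw [hz, h0]
    simp
  · have hu : ‖((nm z : ℂ)⁻¹ • T d z)‖ = 1 := by
      rw [norm_smul, norm_inv, T_norm, Complex.norm_real, Real.norm_eq_abs,
        abs_of_nonneg (nm_nonneg z), inv_mul_cancel₀ hz]
    obtain ⟨b, hb⟩ := exists_basis _ hu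
    let L : E d ≃ₗ[ℂ] E d := (T d).trans (b.repr.symm.toLinearEquiv.trans (T d).symm)
    have hL : ∀ ξ, T d (L ξ) = b.repr.symm (T d ξ) := fun ξ => by
      simp [L]
    refine ⟨L.toContinuousLinearEquiv, fun ξ => ?_, L.bijective, ?_⟩
    · change N (L ξ) = N ξ
      rw [← T_norm_sq, ← T_norm_sq, hL, LinearIsometryEquiv.norm_map]
    · change L ((nm z : ℂ), 0) = z
      apply (T d).injective
      rw [hL]
      have h1 : T d ((nm z : ℂ), 0) = (nm z : ℂ) • EuclideanSpace.single (0 : Fin (d + 1)) (1 : ℂ) := by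
        ext i
        refine Fin.cases ?_ (fun j => ?_) i
        · rw [T_zero_apply]; simp
        · rw [T_succ_apply]; simp
      rw [h1, map_smul, b.repr_symm_single, hb, smul_smul, mul_inv_cancel₀, one_smul]
      exact_mod_cast hz

theorem C4b (d : ℕ) : Pool.Agent.N290.RJ.C4b d := c4b d

end

end Pool.Agent.N286.RJ
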